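import Mathlib
import Pool.Agent.TH923.DM.All
import Pool.Agent.TH923.DM.Pre

/-!
# Uniform boundedness of the torsion of Drinfeld modules
-/

set_option autoImplicit false

namespace Pool.Agent.Results.MP_43acf5_nt.UniformBoundedness

open Polynomial Pool.Agent.TH923.DM

/-- The map `φ_T(x) = T x + g_1 x^q + ... + g_r x^(q^r)` on a field `L` containing `F_q(T)`. -/
noncomputable def phiT (Fq L : Type) [Field Fq] [Fintype Fq] [Field L] [Algebra (RatFunc Fq) L]
    (r : ℕ) (g : ℕ → L) (x : L) : L :=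
  algebraMap (RatFunc Fq) L RatFunc.X * x +
    ∑ i ∈ Finset.Icc 1 r, g i * x ^ (Fintype.card Fq ^ i)

/-- The map `φ_a(x) = ∑ j, a_j φ_T^j(x)` for a polynomial `a = ∑ j, a_j T^j` in `F_q[T]`,
where `φ_T^j` is the `j`-fold composition. -/
noncomputable def phi (Fq L : Type) [Field Fq] [Fintype Fq] [Field L] [Algebra (RatFunc Fq) L]
    (r : ℕ) (g : ℕ → L) (a : Fq[X]) (x : L) : L :=
  ∑ j ∈ Finset.range (a.natDegree + 1),
    algebraMap (RatFunc Fq) L (RatFunc.C (a.coeff j)) * (phiT Fq L r g)^[j] x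

/-- The torsion submodule: the `x` in `L` with `φ_a(x) = 0` for some nonzero `a` in `F_q[T]`. -/
def torsion (Fq L : Type) [Field Fq] [Fintype Fq] [Field L] [Algebra (RatFunc Fq) L]
    (r : ℕ) (g : ℕ → L) : Set L :=
  {x : L | ∃ a : Fq[X], a ≠ 0 ∧ phi Fq L r g a x = 0}

section

variable (Fq L : Type) [Field Fq] [Fintype Fq] [Field L] [Algebra (RatFunc Fq) L]

lemma phiT_eq_ev (r : ℕ) (g : ℕ → L) (p m : ℕ) (hm : 0 < m) (hq : Fintype.card Fq = p ^ m)
    (x : L) : phiT Fq L r g x =
      ev p (fun j => if j = 0 then algebraMap (RatFunc Fq) L RatFunc.X else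
        if m ∣ j then g (j / m) else 0) (m * r) x := by
  classical
  unfold phiT ev
  rw [Finset.sum_range_succ']
  beta_reduce
  rw [if_pos rfl, pow_zero, pow_one, add_comm]
  congr 1
  have h1 : ∑ i ∈ Finset.range (m * r), (if i + 1 = 0 then algebraMap (RatFunc Fq) L RatFunc.X
      else if m ∣ i + 1 then g ((i + 1) / m) else 0) * x ^ (p ^ (i + 1)) =
      ∑ j ∈ Finset.Icc 1 (m * r), (if m ∣ j then g (j / m) else 0) * x ^ (p ^ j) := by
    rw [Finset.range_eq_Ico, Finset.sum_Ico_add' (fun j => (if j = 0 then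
      algebraMap (RatFunc Fq) L RatFunc.X
      else if m ∣ j then g (j / m) else 0) * x ^ (p ^ j)) 0 (m * r) 1]
    have h2 : Finset.Ico (0 + 1) (m * r + 1) = Finset.Icc 1 (m * r) := by
      ext j
      simp only [Finset.mem_Ico, Finset.mem_Icc]
      omega
    rw [h2]
    refine Finset.sum_congr rfl fun j hj => ?_
    rw [Finset.mem_Icc] at hj
    rw [if_neg (by omega)]
  rw [h1]
  have h3 : ∑ i ∈ Finset.Icc 1 r, g i * x ^ (Fintype.card Fq ^ i) =
      ∑ j ∈ (Finset.Icc 1 r).image (fun i => m * i),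
        (if m ∣ j then g (j / m) else 0) * x ^ (p ^ j) := by
    rw [Finset.sum_image (by
      intro a _ b _ hab
      exact Nat.eq_of_mul_eq_mul_left hm hab)]
    refine Finset.sum_congr rfl fun i _ => ?_
    rw [if_pos (Dvd.intro _ rfl), Nat.mul_div_cancel_left _ hm, hq, ← pow_mul]
  rw [h3]
  apply Finset.sum_subset
  · intro j hj
    obtain ⟨i, hi, rfl⟩ := Finset.mem_image.1 hj
    rw [Finset.mem_Icc] at hi ⊢
    exact ⟨Nat.mul_pos hm hi.1, Nat.mul_le_mul_left _ hi.2⟩
  · intro j hj hj2
    rw [if_neg, zero_mul]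
    rintro ⟨i, rfl⟩
    apply hj2
    rw [Finset.mem_Icc] at hj
    refine Finset.mem_image.2 ⟨i, ?_, rfl⟩
    rw [Finset.mem_Icc]
    refine ⟨?_, Nat.le_of_mul_le_mul_left hj.2 hm⟩
    rcases Nat.eq_zero_or_pos i with rfl | hi
    · simp at hj
    · exact hi

/-- The orbit of a torsion point is finite. -/
lemma torsion_preper (r : ℕ) (g : ℕ → L) (x : L) (hx : x ∈ torsion Fq L r g) :
    (Set.range (fun n : ℕ => (phiT Fq L r g)^[n] x)).Finite := by
  classical
  obtain ⟨a, ha, hax⟩ := hx
  letI : Algebra Fq L := ((algebraMap (RatFunc Fq) L).comp RatFunc.C).toAlgebra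
  have halg : ∀ c : Fq, algebraMap Fq L c = algebraMap (RatFunc Fq) L (RatFunc.C c) :=
    fun c => rfl
  obtain ⟨p, hchar⟩ := CharP.exists Fq
  obtain ⟨m, hp, hcard⟩ := FiniteField.card Fq p
  haveI : Fact p.Prime := ⟨hp⟩
  haveI : CharP L p := charP_of_injective_algebraMap (algebraMap Fq L).injective p
  -- additivity
  have hadd : ∀ y z : L, phiT Fq L r g (y + z) = phiT Fq L r g y + phiT Fq L r g z := by
    intro y z
    unfold phiT
    have h1 : ∀ i, (y + z) ^ (Fintype.card Fq ^ i) =
        y ^ (Fintype.card Fq ^ i) + z ^ (Fintype.card Fq ^ i) := by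
      intro i
      rw [hcard, ← pow_mul, add_pow_char_pow]
    simp only [h1, mul_add, Finset.sum_add_distrib]
    ring
  have hsmul : ∀ (c : Fq) (y : L), phiT Fq L r g (c • y) = c • phiT Fq L r g y := by
    intro c y
    unfold phiT
    rw [Algebra.smul_def, Algebra.smul_def, mul_add, Finset.mul_sum]
    congr 1
    · ring
    · refine Finset.sum_congr rfl fun i _ => ?_
      rw [mul_pow, ← map_pow, FiniteField.pow_card_pow]
      ring
  let F : L →ₗ[Fq] L := { toFun := phiT Fq L r g, map_add' := hadd, map_smul' := hsmul }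
  have hF : ∀ y, F y = phiT Fq L r g y := fun y => rfl
  set n := a.natDegree with hn
  set O : Set L := (fun j : ℕ => (phiT Fq L r g)^[j] x) '' (Finset.range n : Set ℕ) with hO
  set U : Submodule Fq L := Submodule.span Fq O with hU
  haveI : FiniteDimensional Fq U :=
    FiniteDimensional.span_of_finite _ ((Finset.finite_toSet _).image _)
  haveI : Finite U := Module.finite_of_finite Fq
  have hOj : ∀ j, j < n → (phiT Fq L r g)^[j] x ∈ U := by
    intro j hj
    exact Submodule.subset_span ⟨j, by simpa using hj, rfl⟩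
  have hlc : a.coeff n ≠ 0 := by
    rw [hn, coeff_natDegree]
    exact leadingCoeff_ne_zero.2 ha
  have hOn : (phiT Fq L r g)^[n] x ∈ U := by
    unfold phi at hax
    rw [← hn, Finset.sum_range_succ] at hax
    have h1 : (a.coeff n) • (phiT Fq L r g)^[n] x ∈ U := by
      have h2 : (a.coeff n) • (phiT Fq L r g)^[n] x =
          - ∑ j ∈ Finset.range n, (a.coeff j) • (phiT Fq L r g)^[j] x := by
        rw [Algebra.smul_def, halg]
        simp only [Algebra.smul_def, halg]
        linear_combination hax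
      rw [h2]
      refine U.neg_mem (U.sum_mem fun j hj => U.smul_mem _ (hOj j ?_))
      simpa using hj
    have h3 := U.smul_mem (a.coeff n)⁻¹ h1
    rwa [smul_smul, inv_mul_cancel₀ hlc, one_smul] at h3
  have hstab : ∀ y ∈ U, phiT Fq L r g y ∈ U := by
    intro y hy
    have h1 : U ≤ U.comap F := by
      rw [hU, Submodule.span_le]
      rintro _ ⟨j, hj, rfl⟩
      show phiT Fq L r g ((phiT Fq L r g)^[j] x) ∈ U
      rw [← Function.iterate_succ_apply' (phiT Fq L r g) j x]
      have hj' : j < n := by simpa using hj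
      rcases Nat.lt_or_ge (j + 1) n with h2 | h2
      · exact hOj _ h2
      · have h3 : j + 1 = n := by omega
        show (phiT Fq L r g)^[j + 1] x ∈ U
        rw [h3]
        exact hOn
    exact h1 hy
  have hall : ∀ j, (phiT Fq L r g)^[j] x ∈ U := by
    intro j
    induction j with
    | zero =>
      rcases Nat.eq_zero_or_pos n with h0 | h0
      · rw [h0] at hOn
        exact hOn
      · exact hOj 0 h0
    | succ j ih =>
      rw [Function.iterate_succ_apply']
      exact hstab _ ih
  refine (Set.toFinite (U : Set L)).subset ?_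
  rintro _ ⟨j, rfl⟩
  exact hall j

end

/-- Uniform boundedness of the torsion of Drinfeld `F_q[T]`-modules: for every prime power `q`,
every rank `r ≥ 1` and every degree `d` there is `B` such that for every extension `L / F_q(T)` of
degree at most `d` and every Drinfeld module of rank `r` over `L` the torsion submodule of `L` has
at most `B` elements. -/
theorem result : ∀ q r d : ℕ, 1 ≤ r → ∃ B : ℕ, ∀ (Fq : Type) [Field Fq] [Fintype Fq],
    Fintype.card Fq = q → ∀ (L : Type) [Field L] [Algebra (RatFunc Fq) L]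
    [FiniteDimensional (RatFunc Fq) L], Module.finrank (RatFunc Fq) L ≤ d →
    ∀ g : ℕ → L, g r ≠ 0 → (torsion Fq L r g).Finite ∧ (torsion Fq L r g).ncard ≤ B := by
  classical
  intro q r d hr
  by_cases hq : ∃ p m : ℕ, p.Prime ∧ 0 < m ∧ q = p ^ m
  · obtain ⟨p, m, hp, hm, rfl⟩ := hq
    haveI : Fact p.Prime := ⟨hp⟩
    obtain ⟨N, hN⟩ := gen_all.{0, 0} p (m * r) d (Nat.mul_pos hm hr)
    refine ⟨p ^ N, ?_⟩
    intro Fq _ _ hFq L _ _ _ hd g hg
    obtain ⟨p', hchar⟩ := CharP.exists Fq
    obtain ⟨m', hp', hcard⟩ := FiniteField.card Fq p'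
    have hpp : p' = p := by
      have h1 : p' ∣ p ^ m := by
        rw [← hFq, hcard]
        exact dvd_pow_self _ m'.ne_zero
      exact (Nat.prime_dvd_prime_iff_eq hp' hp).1 (hp'.dvd_of_dvd_pow h1)
    subst hpp
    letI : Algebra Fq L := ((algebraMap (RatFunc Fq) L).comp RatFunc.C).toAlgebra
    haveI : CharP L p' := charP_of_injective_algebraMap (algebraMap Fq L).injective p'
    letI : Algebra (ZMod p') L := ZMod.algebra L p'
    set g' : ℕ → L := fun j => if j = 0 then algebraMap (RatFunc Fq) L RatFunc.X else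
        if m ∣ j then g (j / m) else 0 with hg'
    have hg'0 : g' 0 = algebraMap (RatFunc Fq) L RatFunc.X := by simp [hg']
    have hg'r : g' (m * r) ≠ 0 := by
      have h1 : m * r ≠ 0 := (Nat.mul_pos hm hr).ne'
      simp only [hg', if_neg h1, if_pos (Dvd.intro r rfl : m ∣ m * r),
        Nat.mul_div_cancel_left _ hm]
      exact hg
    have h1 := hN Fq L hd g' hg'0 hg'r
    obtain ⟨h2, h3⟩ := preper_bound p' (evL p' g' (m * r)) N (fun M _ hM => h1 M hM)
    have h4 : (⇑(evL p' g' (m * r)) : L → L) = phiT Fq L r g := by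
      funext x
      rw [phiT_eq_ev Fq L r g p' m hm hFq x]
      rfl
    rw [h4] at h2 h3
    have h5 : torsion Fq L r g ⊆
        {x : L | (Set.range (fun n : ℕ => (phiT Fq L r g)^[n] x)).Finite} :=
      fun x hx => torsion_preper Fq L r g x hx
    exact ⟨h2.subset h5, (Set.ncard_le_ncard h5 h2).trans h3⟩
  · refine ⟨0, ?_⟩
    intro Fq _ _ hFq
    exfalso
    obtain ⟨p', hchar⟩ := CharP.exists Fq
    obtain ⟨m', hp', hcard⟩ := FiniteField.card Fq p'
    exact hq ⟨p', m', hp', m'.pos, by rw [← hFq, hcard]⟩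

end Pool.Agent.Results.MP_43acf5_nt.UniformBoundedness
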